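import Pool.Agent.N862.TR.Tri
import Pool.Agent.N862.MC.Erg

/-!
Two-colourings of the plane with Lebesgue measurable colour classes contain a monochromatic copy of
every non-equilateral triangle, degenerate or not. (helper862)

If the longest side is at least `3 / 2` times the shortest, the proof is by Fourier analysis. If
not, the lemma of Erdos, Graham, Montgomery, Rothschild, Spencer and Straus reduces the statement
to two equilateral triangles whose sides have ratio below `3 / 2`, and the proof is local, at a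
point where both colours have positive upper density.
-/

set_option autoImplicit false

open MeasureTheory

namespace Pool.Agent.Results.MP_3d980f_co.MeasurableColourings

open Pool.Agent.N862.MC

/-- the isometry between the complex plane and the Euclidean plane -/
noncomputable def iso : ℂ ≃ₗᵢ[ℝ] EuclideanSpace ℝ (Fin 2) := Complex.orthonormalBasisOneI.repr

theorem large {col : EuclideanSpace ℝ (Fin 2) → Bool}
    (hs : NullMeasurableSet (iso ⁻¹' (col ⁻¹' {true})))
    {a b c : EuclideanSpace ℝ (Fin 2)} (hab : a ≠ b)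
    (hr : 3 / 2 * min (dist a b) (min (dist b c) (dist c a)) ≤
      max (dist a b) (max (dist b c) (dist c a)))
    (hno : ¬ ∃ x y z : EuclideanSpace ℝ (Fin 2),
        dist x y = dist a b ∧ dist y z = dist b c ∧ dist z x = dist c a ∧
        col x = col y ∧ col y = col z) : False := by
  obtain ⟨f, hf⟩ : ∃ f : ℂ → ℝ, f = fun z => if col (iso z) = true then 1 else -1 := ⟨_, rfl⟩
  have hpm : ∀ x, f x = 1 ∨ f x = -1 := by
    intro x
    rw [hf]
    by_cases h : col (iso x) = true
    · left; simp [h]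
    · right; simp [h]
  have hcolf : ∀ x y, f x = f y → col (iso x) = col (iso y) := by
    intro x y hxy
    rw [hf] at hxy
    simp only at hxy
    by_cases a : col (iso x) = true <;> by_cases b : col (iso y) = true
    · rw [a, b]
    · rw [if_pos a, if_neg b] at hxy; norm_num at hxy
    · rw [if_neg a, if_pos b] at hxy; norm_num at hxy
    · rw [Bool.not_eq_true] at a b
      rw [a, b]
  have hfm : AEMeasurable f := by
    have h1 : AEMeasurable ((iso ⁻¹' (col ⁻¹' {true})).indicator (fun _ => (2 : ℝ))) :=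
      aemeasurable_const.indicator₀ hs
    have h2 : f = fun z => (iso ⁻¹' (col ⁻¹' {true})).indicator (fun _ => (2 : ℝ)) z - 1 := by
      funext z
      rw [hf]
      by_cases h : col (iso z) = true
      · rw [Set.indicator_of_mem (show z ∈ iso ⁻¹' (col ⁻¹' {true}) from h)]
        simp [h]
        norm_num
      · rw [Set.indicator_of_notMem (show z ∉ iso ⁻¹' (col ⁻¹' {true}) from h)]
        simp [h]
    rw [h2]
    exact h1.sub aemeasurable_const
  obtain ⟨p, hp⟩ : ∃ p : ℂ, p = iso.symm b - iso.symm a := ⟨_, rfl⟩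
  obtain ⟨q, hq⟩ : ∃ q : ℂ, q = iso.symm c - iso.symm a := ⟨_, rfl⟩
  have np : ‖p‖ = dist a b := by
    rw [hp, ← dist_eq_norm, iso.symm.dist_map, dist_comm]
  have nq : ‖q‖ = dist c a := by
    rw [hq, ← dist_eq_norm, iso.symm.dist_map]
  have npq : ‖p - q‖ = dist b c := by
    rw [hp, hq, sub_sub_sub_cancel_right, ← dist_eq_norm, iso.symm.dist_map]
  have hp0 : p ≠ 0 := by
    rw [← norm_ne_zero_iff, np]
    exact dist_ne_zero.2 hab
  refine N862.TR.no_three hfm hpm p q (κ := 5 / 10000) hp0 (by norm_num) ?_ ?_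
  · intro x hx
    rw [np, nq, npq]
    have t1 := dist_triangle b a c
    have t2 := dist_triangle a b c
    have t3 := dist_triangle a c b
    rw [dist_comm b a, dist_comm a c] at t1
    rw [dist_comm a c] at t2
    rw [dist_comm a c, dist_comm c b] at t3
    have m1 : min (dist a b * x) (min (dist b c * x) (dist c a * x)) =
        min (dist a b) (min (dist b c) (dist c a)) * x := by
      rw [min_mul_of_nonneg _ _ hx, min_mul_of_nonneg _ _ hx]
    have m2 : max (dist a b * x) (max (dist b c * x) (dist c a * x)) =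
        max (dist a b) (max (dist b c) (dist c a)) * x := by
      rw [max_mul_of_nonneg _ _ hx, max_mul_of_nonneg _ _ hx]
    have h := N862.TR.J_three (x := dist a b * x) (y := dist b c * x) (z := dist c a * x)
      (mul_nonneg dist_nonneg hx) (mul_nonneg dist_nonneg hx) (mul_nonneg dist_nonneg hx)
      (by nlinarith) (by nlinarith) (by nlinarith)
      (by rw [m1, m2, ← mul_assoc]; exact mul_le_mul_of_nonneg_right hr hx)
    linarith
  · intro u hu x h
    refine hno ⟨iso x, iso (x + p * u), iso (x + q * u), ?_, ?_, ?_, hcolf _ _ h.1, hcolf _ _ h.2⟩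
    · rw [iso.dist_map, dist_self_add_right, norm_mul, hu, mul_one, np]
    · rw [iso.dist_map, dist_add_left, dist_eq_norm, ← sub_mul, norm_mul, hu, mul_one, npq]
    · rw [iso.dist_map, dist_comm, dist_self_add_right, norm_mul, hu, mul_one, nq]

/-- the case of ratio below `3 / 2` on the complex plane -/
theorem small {E : Set ℂ} (hE : NullMeasurableSet E) {u v : ℂ} (hu : u ≠ 0) (hv : v ≠ 0)
    (huv : u ≠ v) (hne : ¬ (‖u‖ = ‖u - v‖ ∧ ‖u - v‖ = ‖v‖))
    (hr : max ‖u‖ (max ‖u - v‖ ‖v‖) < 3 / 2 * min ‖u‖ (min ‖u - v‖ ‖v‖))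
    (H : ∀ p s : ℂ, ‖s‖ = 1 → NM E p (p + s * u) (p + s * v)) : False := by
  have hu' : 0 < ‖u‖ := norm_pos_iff.2 hu
  have hv' : 0 < ‖v‖ := norm_pos_iff.2 hv
  have huv' : 0 < ‖u - v‖ := norm_pos_iff.2 (sub_ne_zero.2 huv)
  -- equilateral triangles on the three sides
  have rot : ∀ u v : ℂ, (∀ p s : ℂ, ‖s‖ = 1 → NM E p (p + s * u) (p + s * v)) → u ≠ 0 →
      ∀ p w : ℂ, ‖w‖ = ‖u‖ → NM E p (p + w) (p + om * w) := by
    intro u v h hu p w hw
    have hs : ‖w / u‖ = 1 := by
      rw [norm_div, hw, div_self (norm_ne_zero_iff.2 hu)]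
    have h1 := eg_two (E := E) (u := w / u * u) (v := w / u * v) (by
      intro p s hs'
      rw [← mul_assoc, ← mul_assoc]
      exact h p (s * (w / u)) (by rw [norm_mul, hs', hs, one_mul])) p
    rw [div_mul_cancel₀ _ hu] at h1
    exact h1
  have r1 := rot u v H hu
  have r2 := rot v u (fun p s hs => by
    have := H p s hs
    unfold NM at *
    tauto) hv
  have r3 := rot (v - u) (-u) (fun p s hs => by
    have := H (p + s * (-u)) s hs
    rw [show p + s * -u + s * u = p by ring, show p + s * -u + s * v = p + s * (v - u) by ring]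
      at this
    unfold NM at *
    tauto) (sub_ne_zero.2 (Ne.symm huv))
  have m1 : ∀ x ∈ ({‖u‖, ‖u - v‖, ‖v‖} : Set ℝ), ∀ y ∈ ({‖u‖, ‖u - v‖, ‖v‖} : Set ℝ),
      x < 3 / 2 * y := by
    have a1 := le_max_left ‖u‖ (max ‖u - v‖ ‖v‖)
    have a2 := (le_max_left ‖u - v‖ ‖v‖).trans (le_max_right ‖u‖ (max ‖u - v‖ ‖v‖))
    have a3 := (le_max_right ‖u - v‖ ‖v‖).trans (le_max_right ‖u‖ (max ‖u - v‖ ‖v‖))
    have b1 := min_le_left ‖u‖ (min ‖u - v‖ ‖v‖)
    have b2 := (min_le_right ‖u‖ (min ‖u - v‖ ‖v‖)).trans (min_le_left ‖u - v‖ ‖v‖)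
    have b3 := (min_le_right ‖u‖ (min ‖u - v‖ ‖v‖)).trans (min_le_right ‖u - v‖ ‖v‖)
    intro x hx y hy
    simp only [Set.mem_insert_iff, Set.mem_singleton_iff] at hx hy
    rcases hx with rfl | rfl | rfl <;> rcases hy with rfl | rfl | rfl <;> linarith
  have r3' : ∀ p w : ℂ, ‖w‖ = ‖u - v‖ → NM E p (p + w) (p + om * w) := by
    intro p w hw
    exact r3 p w (by rw [hw, norm_sub_rev])
  have two : ∀ a b : ℝ, a ∈ ({‖u‖, ‖u - v‖, ‖v‖} : Set ℝ) → b ∈ ({‖u‖, ‖u - v‖, ‖v‖} : Set ℝ) →
      a < b → False := by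
    intro a b ha hb hab
    have ha0 : 0 < a := by
      simp only [Set.mem_insert_iff, Set.mem_singleton_iff] at ha
      rcases ha with rfl | rfl | rfl <;> assumption
    have hall : ∀ c : ℝ, c ∈ ({‖u‖, ‖u - v‖, ‖v‖} : Set ℝ) → ∀ p w : ℂ, ‖w‖ = c →
        NM E p (p + w) (p + om * w) := by
      intro c hc p w hw
      simp only [Set.mem_insert_iff, Set.mem_singleton_iff] at hc
      rcases hc with h | h | h
      · exact r1 p w (hw.trans h)
      · exact r3' p w (hw.trans h)
      · exact r2 p w (hw.trans h)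
    apply ratio_small hE ha0 hab (by linarith [m1 b hb a ha])
    intro p w hw
    rcases hw with h | h
    · exact hall a ha p w h
    · exact hall b hb p w h
  have mu : ‖u‖ ∈ ({‖u‖, ‖u - v‖, ‖v‖} : Set ℝ) := by simp
  have muv : ‖u - v‖ ∈ ({‖u‖, ‖u - v‖, ‖v‖} : Set ℝ) := by simp
  have mv : ‖v‖ ∈ ({‖u‖, ‖u - v‖, ‖v‖} : Set ℝ) := by simp
  apply hne
  constructor
  · rcases lt_trichotomy ‖u‖ ‖u - v‖ with h | h | h
    · exact (two _ _ mu muv h).elim
    · exact h
    · exact (two _ _ muv mu h).elim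
  · rcases lt_trichotomy ‖u - v‖ ‖v‖ with h | h | h
    · exact (two _ _ muv mv h).elim
    · exact h
    · exact (two _ _ mv muv h).elim

theorem result : ∀ a b c : EuclideanSpace ℝ (Fin 2), a ≠ b → b ≠ c → a ≠ c →
    ¬ (dist a b = dist b c ∧ dist b c = dist c a) →
    ∀ f : EuclideanSpace ℝ (Fin 2) → Bool, NullMeasurableSet (f ⁻¹' {true}) →
      ∃ x y z : EuclideanSpace ℝ (Fin 2),
        dist x y = dist a b ∧ dist y z = dist b c ∧ dist z x = dist c a ∧
        f x = f y ∧ f y = f z := by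
  intro a b c hab hbc hac hne col hcol
  by_contra hno
  have hs : NullMeasurableSet (iso ⁻¹' (col ⁻¹' {true})) :=
    hcol.preimage iso.measurePreserving.quasiMeasurePreserving
  by_cases hr : 3 / 2 * min (dist a b) (min (dist b c) (dist c a)) ≤
      max (dist a b) (max (dist b c) (dist c a))
  · exact large hs hab hr hno
  · obtain ⟨p, hp⟩ : ∃ p : ℂ, p = iso.symm b - iso.symm a := ⟨_, rfl⟩
    obtain ⟨q, hq⟩ : ∃ q : ℂ, q = iso.symm c - iso.symm a := ⟨_, rfl⟩
    have np : ‖p‖ = dist a b := by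
      rw [hp, ← dist_eq_norm, iso.symm.dist_map, dist_comm]
    have nq : ‖q‖ = dist c a := by
      rw [hq, ← dist_eq_norm, iso.symm.dist_map]
    have npq : ‖p - q‖ = dist b c := by
      rw [hp, hq, sub_sub_sub_cancel_right, ← dist_eq_norm, iso.symm.dist_map]
    have hp0 : p ≠ 0 := by
      rw [← norm_ne_zero_iff, np]
      exact dist_ne_zero.2 hab
    have hq0 : q ≠ 0 := by
      rw [← norm_ne_zero_iff, nq]
      exact dist_ne_zero.2 (Ne.symm hac)
    have hpq : p ≠ q := by
      rw [← sub_ne_zero, ← norm_ne_zero_iff, npq]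
      exact dist_ne_zero.2 hbc
    apply small hs hp0 hq0 hpq (by rw [np, nq, npq]; exact hne)
      (by rw [np, nq, npq]; exact not_le.1 hr)
    intro x s h1
    have hcc : ¬ (col (iso x) = col (iso (x + s * p)) ∧
        col (iso (x + s * p)) = col (iso (x + s * q))) := by
      intro h
      refine hno ⟨iso x, iso (x + s * p), iso (x + s * q), ?_, ?_, ?_, h.1, h.2⟩
      · rw [iso.dist_map, dist_self_add_right, norm_mul, h1, one_mul, np]
      · rw [iso.dist_map, dist_add_left, dist_eq_norm, ← mul_sub, norm_mul, h1, one_mul, npq]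
      · rw [iso.dist_map, dist_comm, dist_self_add_right, norm_mul, h1, one_mul, nq]
    have hm : ∀ z, z ∈ iso ⁻¹' (col ⁻¹' {true}) ↔ col (iso z) = true := fun z => Iff.rfl
    refine ⟨?_, ?_⟩
    · rintro ⟨h1, h2, h3⟩
      rw [hm] at h1 h2 h3
      exact hcc ⟨by rw [h1, h2], by rw [h2, h3]⟩
    · rintro ⟨h1, h2, h3⟩
      rw [hm, Bool.not_eq_true] at h1 h2 h3
      exact hcc ⟨by rw [h1, h2], by rw [h2, h3]⟩

end Pool.Agent.Results.MP_3d980f_co.MeasurableColourings
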